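import Pool.Agent.Mob.Stmts2
import Pool.Agent.Helper5_Mob.Ini

/-!
# Module IN2 of the squad T2
-/

set_option autoImplicit false

open MeasureTheory ProbabilityTheory Function

open scoped ENNReal BigOperators InnerProductSpace

noncomputable section

namespace Pool.Agent.Mob.H17

open Pool.Agent.Mob Pool.Agent.Anderson Pool.Agent.Loc Pool.Agent.Helper54.Bal

variable {d : ℕ}

theorem spread_anti (V : Site d → ℝ) (T : ℝ) {R R' : ℝ} (h : R ≤ R') (J : Set ℝ) :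
    spread V T R' J ≤ spread V T R J := by
  unfold spread
  refine lintegral_mono fun E => ENNReal.tsum_le_tsum fun u => ?_
  by_cases hu : R' ≤ (sd 0 u : ℝ)
  · rw [if_pos hu, if_pos (h.trans hu)]
  · rw [if_neg hu]
    exact zero_le

/-- IN2. -/
theorem in2 (hce : Ce3Stmt) (hann : AnnStmt) : In2Stmt := by
  intro d hd C₀ σ hC hσ δ a b E₀ hδ hδ1 ha hb
  obtain ⟨h, hh⟩ : ∃ h : ℝ, h = min (E₀ - a) (b - E₀) / 2 := ⟨_, rfl⟩
  have h0 : 0 < h := by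
    rw [hh]
    have : 0 < min (E₀ - a) (b - E₀) := lt_min (by linarith) (by linarith)
    linarith
  have ha2 : a + 2 * h ≤ E₀ := by
    rw [hh]
    have := min_le_left (E₀ - a) (b - E₀)
    linarith
  have hb2 : E₀ + 2 * h ≤ b := by
    rw [hh]
    have := min_le_right (E₀ - a) (b - E₀)
    linarith
  have hσ' : 0 < |σ| := abs_pos.2 hσ
  have hd1 : (1 : ℝ) ≤ d := by exact_mod_cast hd
  obtain ⟨δ₁, hδ₁⟩ : ∃ δ₁ : ℝ, δ₁ = min δ (1 / 10) := ⟨_, rfl⟩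
  have d0 : 0 < δ₁ := by rw [hδ₁]; exact lt_min hδ (by norm_num)
  have d1 : δ₁ ≤ 1 / 10 := by rw [hδ₁]; exact min_le_right _ _
  have d2 : δ₁ ≤ δ := by rw [hδ₁]; exact min_le_left _ _
  obtain ⟨K, hK, hce⟩ := hce d hd
  obtain ⟨ℓ₀, hℓ₀⟩ := hce σ hσ (δ₁ / 2) h (by linarith) (by linarith) h0
  obtain ⟨m, ℓ₁, hm, hℓ₁, hnum⟩ := H5.num d hd C₀ |σ| (δ₁ / 2 / 8) hC hσ' (by linarith)
  obtain ⟨T₀, hT₀, hT⟩ := H5.scale d hd δ₁ d0 (by linarith) (max ℓ₀ ℓ₁)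
  refine ⟨T₀, hT₀, fun T hTT hint => ?_⟩
  have hT1 : 1 ≤ T := hT₀.trans hTT
  have hT0 : 0 < T := by linarith
  obtain ⟨ℓ, hNℓ, hℓ1, hiff, -, hη2, -⟩ := hT T hTT
  have hx0 : (0 : ℝ) < ℓ := by exact_mod_cast hℓ1
  have hx1 : (1 : ℝ) ≤ ℓ := by exact_mod_cast hℓ1
  -- the lower bound of `1 / T`
  have hη1 : (ℓ : ℝ) ^ (-((d : ℝ) + 2 * (δ₁ / 2))) ≤ 1 / T := by
    have e1 := (hiff ℓ).mpr le_rfl
    have e2 : T ≤ (ℓ : ℝ) ^ ((d : ℝ) + δ₁) := by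
      have e3 := Real.rpow_le_rpow (by positivity) e1 (by linarith : 0 ≤ (d : ℝ) + δ₁)
      rwa [← Real.rpow_mul hT0.le, one_div_mul_cancel (by linarith), Real.rpow_one] at e3
    have e4 : (d : ℝ) + 2 * (δ₁ / 2) = d + δ₁ := by ring
    rw [e4, Real.rpow_neg hx0.le, ← one_div]
    exact one_div_le_one_div_of_le hT0 e2
  have hη3 : T ^ (-6 : ℝ) ≤ (ℓ : ℝ) ^ (-(6 * (d : ℝ))) := by
    have e1 : 1 / T ≤ (ℓ : ℝ) ^ (-(d : ℝ)) :=
      hη2.trans (Real.rpow_le_rpow_of_exponent_le hx1 (by linarith))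
    have e2 := Real.rpow_le_rpow (by positivity) e1 (by norm_num : (0 : ℝ) ≤ 6)
    rw [← Real.rpow_mul hx0.le, one_div, Real.inv_rpow hT0.le, ← Real.rpow_neg hT0.le] at e2
    refine e2.trans (le_of_eq ?_)
    congr 1
    ring
  have hR : T ^ (1 / ((d : ℝ) + δ)) ≤ T ^ (1 / ((d : ℝ) + δ₁)) := by
    refine Real.rpow_le_rpow_of_exponent_le hT1 ?_
    exact one_div_le_one_div_of_le (by linarith) (by linarith)
  have hspr : ENNReal.ofReal (1 / T) * ∫⁻ V, spr V 0 (1 / T) (Set.Ioo a b) ℓ ∂(PP d (gl σ)) ≤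
      ENNReal.ofReal ((ℓ : ℝ) ^ (-(6 * (d : ℝ)))) := by
    rw [← lintegral_const_mul' _ _ ENNReal.ofReal_ne_top]
    have e : ∀ V : Site d → ℝ, ENNReal.ofReal (1 / T) * spr V 0 (1 / T) (Set.Ioo a b) ℓ =
        spread V T (T ^ (1 / ((d : ℝ) + δ₁))) (Set.Ioo a b) :=
      fun V => (H5.spread_eq V T _ _ ℓ hiff).symm
    rw [lintegral_congr e]
    refine (lintegral_mono fun V => spread_anti V T hR _).trans ?_
    exact hint.le.trans (ENNReal.ofReal_le_ofReal hη3)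
  have hcell := hℓ₀ ℓ ((le_max_left _ _).trans hNℓ) (1 / T) hη1 hη2 a b hspr
  obtain ⟨ℓ', hℓ'⟩ : ∃ ℓ' : ℕ, ℓ' = 8 * K * ℓ := ⟨_, rfl⟩
  rw [← hℓ'] at hcell
  have hle : ℓ ≤ ℓ' := by
    rw [hℓ']
    exact Nat.le_mul_of_pos_left _ (by omega)
  have hℓ'1 : 1 ≤ ℓ' := hℓ1.trans hle
  have hy0 : (0 : ℝ) < ℓ' := by exact_mod_cast hℓ'1
  refine ⟨h, h0, 10 * (m + 1) * ℓ', fun F hF => ?_⟩
  have hbd := bddDens_gl hσ
  have hbi := hann d (gl σ) (1 / |σ|) hbd m ℓ' ((ℓ' : ℝ) ^ (-(120 * (d : ℝ))))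
    ((ℓ' : ℝ) ^ (14 * d + 3)) ((ℓ' : ℝ) ^ (-(δ₁ / 2 / 8))) F hm hℓ'1 (by positivity) (by positivity)
    (by positivity) (fun c => hcell F (by linarith [hF.1]) (by linarith [hF.2]) c)
  refine ⟨_, ?_, ?_, hbi⟩
  · positivity
  · exact hnum ℓ' (((le_max_right _ _).trans hNℓ).trans hle)

end Pool.Agent.Mob.H17
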